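import Pool.Agent.H773.LK.Spec3

/-!
# Project LK (MP_daec8e_mp, owner helper773), task KUN (helper251)
-/

set_option autoImplicit false

noncomputable section

namespace Pool.Agent.H251.LK

open MeasureTheory Filter Topology Set
open Pool.Agent.H773.LK
open scoped ENNReal NNReal ComplexConjugate InnerProductSpace

/-- the measure on the product -/
abbrev mm : Measure (ℝ × (ℤ × ℝ)) := m01.prod mZR

variable {a : ℝ} {P : ℝ × (ℤ × ℝ) → Pl} {g : Pl → ℝ × (ℤ × ℝ)}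

lemma norm_const (_ha : 0 < a) : ‖(((√a)⁻¹ : ℝ) : ℂ)‖ₑ = ENNReal.ofReal ((√a)⁻¹) := by
  rw [← ofReal_norm, Complex.norm_real, Real.norm_of_nonneg (by positivity)]

lemma ac (ha : 0 < a) (hmap : Measure.map P mm = ENNReal.ofReal a • (volume : Measure Pl))
    (hP : Measurable P) : Measure.QuasiMeasurePreserving P mm (volume : Measure Pl) := by
  refine ⟨hP, ?_⟩
  rw [hmap]
  exact Measure.smul_absolutelyContinuous

lemma norm_comp (ha : 0 < a) (hP : Measurable P)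
    (hmap : Measure.map P mm = ENNReal.ofReal a • (volume : Measure Pl)) {f : Pl → ℂ}
    (hf : AEStronglyMeasurable f (volume : Measure Pl)) :
    eLpNorm (fun p => (((√a)⁻¹ : ℝ) : ℂ) * f (P p)) 2 mm = eLpNorm f 2 (volume : Measure Pl) := by
  have h1 : eLpNorm (fun p => (((√a)⁻¹ : ℝ) : ℂ) * f (P p)) 2 mm =
      ‖(((√a)⁻¹ : ℝ) : ℂ)‖ₑ * eLpNorm (f ∘ P) 2 mm := by
    have := eLpNorm_const_smul (((√a)⁻¹ : ℝ) : ℂ) (f ∘ P) 2 mm
    exact this
  have h2 : eLpNorm (f ∘ P) 2 mm = eLpNorm f 2 (Measure.map P mm) := by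
    rw [eLpNorm_map_measure _ hP.aemeasurable]
    rw [hmap]
    exact hf.mono_ac Measure.smul_absolutelyContinuous
  rw [h1, h2, hmap, eLpNorm_smul_measure_of_ne_top (by norm_num), norm_const ha, smul_eq_mul,
    ← mul_assoc]
  have h3 : ENNReal.ofReal (√a)⁻¹ * ENNReal.ofReal a ^ ((1 / (2 : ℝ≥0∞)).toReal) = 1 := by
    rw [ENNReal.ofReal_rpow_of_pos ha, ← ENNReal.ofReal_mul (by positivity)]
    have : (√a)⁻¹ * a ^ ((1 / (2 : ℝ≥0∞)).toReal) = 1 := by
      rw [show ((1 / (2 : ℝ≥0∞)).toReal) = (1 / 2 : ℝ) by norm_num, ← Real.sqrt_eq_rpow]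
      exact inv_mul_cancel₀ (Real.sqrt_pos.2 ha).ne'
    rw [this, ENNReal.ofReal_one]
  rw [h3, one_mul]

lemma mem_comp (ha : 0 < a) (hP : Measurable P)
    (hmap : Measure.map P mm = ENNReal.ofReal a • (volume : Measure Pl)) (F : HS) :
    MemLp (fun p => (((√a)⁻¹ : ℝ) : ℂ) * F (P p)) 2 mm := by
  refine ⟨?_, ?_⟩
  · exact (((Lp.aestronglyMeasurable F).comp_quasiMeasurePreserving (ac ha hmap hP)).const_mul _)
  · rw [norm_comp ha hP hmap (Lp.aestronglyMeasurable F)]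
    exact Lp.eLpNorm_lt_top F

/-- the change of variables as a linear isometry -/
def chg (ha : 0 < a) (hP : Measurable P)
    (hmap : Measure.map P mm = ENNReal.ofReal a • (volume : Measure Pl)) :
    HS →ₗᵢ[ℂ] Lp ℂ 2 mm where
  toFun F := (mem_comp ha hP hmap F).toLp _
  map_add' F G := by
    apply Lp.ext
    refine (MemLp.coeFn_toLp _).trans ?_
    refine EventuallyEq.trans ?_ (Lp.coeFn_add _ _).symm
    filter_upwards [(ac ha hmap hP).ae_eq_comp (Lp.coeFn_add F G),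
      (mem_comp ha hP hmap F).coeFn_toLp, (mem_comp ha hP hmap G).coeFn_toLp] with p h1 h2 h3
    simp only [Function.comp_apply, Pi.add_apply] at h1
    rw [h1, Pi.add_apply, h2, h3, mul_add]
  map_smul' c F := by
    apply Lp.ext
    refine (MemLp.coeFn_toLp _).trans ?_
    refine EventuallyEq.trans ?_ (Lp.coeFn_smul _ _).symm
    filter_upwards [(ac ha hmap hP).ae_eq_comp (Lp.coeFn_smul c F),
      (mem_comp ha hP hmap F).coeFn_toLp] with p h1 h2
    simp only [Function.comp_apply, Pi.smul_apply, smul_eq_mul] at h1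
    rw [h1, RingHom.id_apply, Pi.smul_apply, h2, smul_eq_mul]
    ring
  norm_map' F := by
    change ‖(mem_comp ha hP hmap F).toLp _‖ = ‖F‖
    rw [Lp.norm_toLp, norm_comp ha hP hmap (Lp.aestronglyMeasurable F), Lp.norm_def]

lemma chg_ae (ha : 0 < a) (hP : Measurable P)
    (hmap : Measure.map P mm = ENNReal.ofReal a • (volume : Measure Pl)) (F : HS) :
    (chg ha hP hmap F : ℝ × (ℤ × ℝ) → ℂ) =ᵐ[mm] fun p => (((√a)⁻¹ : ℝ) : ℂ) * F (P p) :=
  MemLp.coeFn_toLp (mem_comp ha hP hmap F)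

lemma chg_surj (ha : 0 < a) (hP : Measurable P)
    (hmap : Measure.map P mm = ENNReal.ofReal a • (volume : Measure Pl)) (hg : Measurable g)
    (h2 : ∀ᵐ p ∂mm, g (P p) = p) : Function.Surjective (chg ha hP hmap) := by
  intro f
  have hf : StronglyMeasurable (f : ℝ × (ℤ × ℝ) → ℂ) := Lp.stronglyMeasurable f
  have hs : (((√a)⁻¹ : ℝ) : ℂ) * ((√a : ℝ) : ℂ) = 1 := by
    rw [← Complex.ofReal_mul, inv_mul_cancel₀ (Real.sqrt_pos.2 ha).ne', Complex.ofReal_one]
  set F₀ : Pl → ℂ := fun x => ((√a : ℝ) : ℂ) * f (g x) with hF₀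
  have hF₀m : StronglyMeasurable F₀ := (hf.comp_measurable hg).const_mul _
  have key : (fun p => (((√a)⁻¹ : ℝ) : ℂ) * F₀ (P p)) =ᵐ[mm] (f : ℝ × (ℤ × ℝ) → ℂ) := by
    filter_upwards [h2] with p hp
    rw [hF₀]
    simp only
    rw [hp, ← mul_assoc, hs, one_mul]
  have hmem : MemLp F₀ 2 (volume : Measure Pl) := by
    refine ⟨hF₀m.aestronglyMeasurable, ?_⟩
    rw [← norm_comp ha hP hmap hF₀m.aestronglyMeasurable, eLpNorm_congr_ae key]
    exact Lp.eLpNorm_lt_top f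
  refine ⟨hmem.toLp F₀, ?_⟩
  apply Lp.ext
  refine (chg_ae ha hP hmap _).trans (EventuallyEq.trans ?_ key)
  filter_upwards [(ac ha hmap hP).ae_eq_comp hmem.coeFn_toLp] with p hp
  simp only [Function.comp_apply] at hp
  rw [hp]

theorem t_KUN (hPTM : S_PTM) (hCUR : S_CUR) : S_KUN := by
  intro a e₁ e₂ ha h1 h2 h12
  obtain ⟨hP, hmap, g, hg, -, hgp⟩ := hPTM a e₁ e₂ ha h1 h2 h12
  obtain ⟨J, hJ⟩ := hCUR
  let U : HS ≃ₗᵢ[ℂ] Lp ℂ 2 mm :=
    LinearIsometryEquiv.ofSurjective (chg ha hP hmap) (chg_surj ha hP hmap hg hgp)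
  refine ⟨U.trans J, fun F => ?_⟩
  have h3 := Measure.ae_ae_of_ae_prod (chg_ae ha hP hmap F)
  filter_upwards [hJ (chg ha hP hmap F), h3] with θ h4 h5
  exact h4.trans h5

end Pool.Agent.H251.LK
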